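import Pool.Agent.Helper74.WB.St

/-! Project WB, module CNT: the labels are countable (helper33). -/

set_option autoImplicit false

namespace Pool.Agent.Helper33.WB

open Pool.Agent.Helper74 Pool.Agent.Helper74.WB

/-- Labels as a sum type. -/
def enc {W : Type} : Lb W → (Bool ⊕ W) ⊕ ((W × List W) ⊕ (W × List W))
  | .b i => Sum.inl (Sum.inl i)
  | .z X => Sum.inl (Sum.inr X)
  | .t g => Sum.inr (Sum.inl g)
  | .y g => Sum.inr (Sum.inr g)

theorem enc_inj {W : Type} : Function.Injective (enc (W := W)) := by
  intro a b h
  cases a <;> cases b <;> simp_all [enc]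

theorem hCNT : StCNT := by
  intro W _
  exact enc_inj.countable

end Pool.Agent.Helper33.WB
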